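import Mathlib
import Pool.Agent.W953.KC.Par

/-!
# Guesses
-/

set_option autoImplicit false

namespace Pool.Agent.W953.GC

open Pool.Agent.H540R2 Pool.Agent.H540R2.Circuit Pool.Agent.W953.NW

variable {n m : ℕ}

/-- `x` is accepted for some guess -/
def Guess (V : Circuit (n + m)) (x : Fin n → Bool) : Prop :=
  ∃ y : Fin m → Bool, V.eval (Fin.append x y) = true

/-- the variables of the dual circuit -/
def gg (n m : ℕ) (p : Fin ((n + m) + (n + m))) (u : Fin ((n + n) + m) → Bool) : Bool :=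
  Fin.addCases (motive := fun _ => Bool)
    (fun i => Fin.addCases (motive := fun _ => Bool)
      (fun i => u (Fin.castAdd m (Fin.castAdd n i))) (fun j => u (Fin.natAdd (n + n) j)) i)
    (fun i => Fin.addCases (motive := fun _ => Bool)
      (fun i => u (Fin.castAdd m (Fin.natAdd n i))) (fun j => !(u (Fin.natAdd (n + n) j))) i) p

lemma gg_av (P : Circuit ((n + n) + m))
    (hP : ∀ j : Fin m, Av P (fun u => !(u (Fin.natAdd (n + n) j))) 1)
    (p : Fin ((n + m) + (n + m))) : Av P (gg n m p) 1 := by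
  refine Fin.addCases (fun i => ?_) (fun i => ?_) p
  · refine Fin.addCases (fun i => ?_) (fun j => ?_) i
    · refine (Av.var P (Fin.castAdd m (Fin.castAdd n i)) 1).congr fun u => ?_
      simp only [gg, Fin.addCases_left]
    · refine (Av.var P (Fin.natAdd (n + n) j) 1).congr fun u => ?_
      simp only [gg, Fin.addCases_left, Fin.addCases_right]
  · refine Fin.addCases (fun i => ?_) (fun j => ?_) i
    · refine (Av.var P (Fin.castAdd m (Fin.natAdd n i)) 1).congr fun u => ?_
      simp only [gg, Fin.addCases_left, Fin.addCases_right]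
    · refine (hP j).congr fun u => ?_
      simp only [gg, Fin.addCases_right]

lemma gg_le {z z' : Fin (n + n) → Bool} (h : ∀ i, z i ≤ z' i) (y : Fin m → Bool)
    (p : Fin ((n + m) + (n + m))) : gg n m p (Fin.append z y) ≤ gg n m p (Fin.append z' y) := by
  refine Fin.addCases (fun i => ?_) (fun i => ?_) p
  · refine Fin.addCases (fun i => ?_) (fun j => ?_) i
    · simp only [gg, Fin.addCases_left, Fin.append_left]
      exact h _
    · simp only [gg, Fin.addCases_left, Fin.addCases_right, Fin.append_right]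
      exact le_rfl
  · refine Fin.addCases (fun i => ?_) (fun j => ?_) i
    · simp only [gg, Fin.addCases_left, Fin.addCases_right, Fin.append_left]
      exact h _
    · simp only [gg, Fin.addCases_right, Fin.append_right]
      exact le_rfl

lemma gg_lits (x : Fin n → Bool) (y : Fin m → Bool) :
    (fun p => gg n m p (Fin.append (lits x) y)) = lits (Fin.append x y) := by
  funext p
  refine Fin.addCases (fun i => ?_) (fun i => ?_) p
  · refine Fin.addCases (fun i => ?_) (fun j => ?_) i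
    · simp only [gg, lits, Fin.addCases_left, Fin.append_left]
    · simp only [gg, lits, Fin.addCases_left, Fin.addCases_right, Fin.append_right,
        Fin.append_left]
  · refine Fin.addCases (fun i => ?_) (fun j => ?_) i
    · simp only [gg, lits, Fin.addCases_left, Fin.addCases_right, Fin.append_left,
        Fin.append_right]
    · simp only [gg, lits, Fin.addCases_right, Fin.append_right]

/-- a monotone function that contains the function of `V` on a slice -/
theorem lits_guess (V : Circuit (n + m)) :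
    ∃ V' : Circuit ((n + n) + m), V'.size ≤ 2 * V.size + m ∧
      (∀ z z' : Fin (n + n) → Bool, (∀ i, z i ≤ z' i) → Guess V' z → Guess V' z') ∧
      ∀ x, (Guess V' (lits x) ↔ Guess V x) := by
  obtain ⟨P1, p1, a1⟩ := Stp.all (Circuit.empty ((n + n) + m))
    (fun j u => if hj : j < m then !(u (Fin.natAdd (n + n) ⟨j, hj⟩)) else false) 1 1 1 m
    (fun j hj P' _ => by
      obtain ⟨Q, q1, q2⟩ := (Av.var P' (Fin.natAdd (n + n) (⟨j, hj⟩ : Fin m)) 0).not
      refine ⟨Q, q1, q2.congr fun x => ?_⟩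
      rw [dif_pos hj])
  have a2 : ∀ j : Fin m, Av P1 (fun u => !(u (Fin.natAdd (n + n) j))) 1 := fun j =>
    (a1 j.1 j.2).congr fun u => by rw [dif_pos j.2]
  obtain ⟨P2, p2, a3⟩ := Av.app P1 (dual V) (gg n m) 1 (gg_av P1 a2)
  obtain ⟨V', c1, -, -, c4⟩ := a3.circuit
  refine ⟨V', ?_, ?_, ?_⟩
  · have h1 := (p1.trans p2).2.1
    have h2 : (Circuit.empty ((n + n) + m)).size = 0 := rfl
    have h3 : (dual V).size = 2 * V.size := rfl
    omega
  · rintro z z' hz ⟨y, hy⟩
    refine ⟨y, ?_⟩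
    rw [c4] at hy ⊢
    have := eval_le (dual_mono V) (fun p => gg_le hz y p)
    rw [hy] at this
    exact Bool.eq_true_of_true_le this
  · intro x
    constructor
    · rintro ⟨y, hy⟩
      refine ⟨y, ?_⟩
      rw [c4, gg_lits, dual_eval] at hy
      exact hy
    · rintro ⟨y, hy⟩
      refine ⟨y, ?_⟩
      rw [c4, gg_lits, dual_eval]
      exact hy

/-- the nonuniform form of `P/Poly = NP/Poly` -/
def Q1 : Prop := ∃ c : ℕ, ∀ S ≥ 2, ∀ (n m : ℕ) (V : Circuit (n + m)), V.size ≤ S → n ≤ S →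
  m ≤ S → ∃ C : Circuit n, C.size ≤ S ^ c ∧ ∀ x, (C.eval x = true ↔ Guess V x)

/-- the same for monotone functions, few NOT gates and few slices -/
def On (t W : ℕ → ℕ) : Prop := ∃ c : ℕ, ∀ S ≥ 2, ∀ (n m : ℕ) (V : Circuit (n + m)),
  V.size ≤ S → n ≤ S → m ≤ S →
  (∀ x x' : Fin n → Bool, (∀ i, x i ≤ x' i) → Guess V x → Guess V x') →
  ∀ k, ∃ C : Circuit n, C.nots ≤ t n ∧ C.size ≤ S ^ c ∧
    ∀ x, k ≤ wt x → wt x < k + W n → (C.eval x = true ↔ Guess V x)

lemma pow_bound {S A n K c : ℕ} (hS : 2 ≤ S) (hn : n ≤ S) (hA : A ≤ S ^ c) :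
    2 ^ 21 * (n + 1) ^ (K + 14) * (A + 1) ≤ S ^ (21 + 2 * (K + 14) + (c + 1)) := by
  have h1 : n + 1 ≤ S ^ 2 := by nlinarith
  have h2 : A + 1 ≤ S ^ (c + 1) := by
    have : 1 ≤ S ^ c := Nat.one_le_pow _ _ (by omega)
    calc A + 1 ≤ S ^ c * 2 := by omega
      _ ≤ S ^ c * S := Nat.mul_le_mul_left _ hS
      _ = S ^ (c + 1) := (pow_succ S c).symm
  calc 2 ^ 21 * (n + 1) ^ (K + 14) * (A + 1) ≤ S ^ 21 * (S ^ 2) ^ (K + 14) * S ^ (c + 1) := by
        gcongr
    _ = S ^ (21 + 2 * (K + 14) + (c + 1)) := by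
        rw [← pow_mul, ← pow_add, ← pow_add]

/-- **The equivalence.** -/
theorem on_iff (K : ℕ) (t W : ℕ → ℕ) (hW : ∀ n, 1 ≤ W n ∧ W n ≤ K * 2 ^ t n) :
    On t W ↔ Q1 := by
  constructor
  · rintro ⟨c, h⟩
    refine ⟨3 * c + 2, fun S hS n m V hV hn hm => ?_⟩
    obtain ⟨V', v1, v2, v3⟩ := lits_guess V
    have hS3 : 4 * S ≤ S ^ 3 := by
      have : S ^ 3 = S * S * S := by ring
      rw [this]
      exact Nat.mul_le_mul_right _ (Nat.mul_le_mul hS hS)
    obtain ⟨C', c1, c2, c3⟩ := h (S ^ 3) (by omega) (n + n) m V' (by omega) (by omega) (by omega)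
      v2 n
    obtain ⟨C, d1, -, d3⟩ := subst_lits C' (fun i : Fin n => i)
    refine ⟨C, ?_, fun x => ?_⟩
    · rw [← pow_mul] at c2
      have e1 : 1 ≤ S ^ (3 * c) := Nat.one_le_pow _ _ (by omega)
      calc C.size ≤ S ^ (3 * c) + S := by omega
        _ ≤ S ^ (3 * c) * S + S ^ (3 * c) * S :=
            Nat.add_le_add (Nat.le_mul_of_pos_right _ (by omega)) (Nat.le_mul_of_pos_left _ e1)
        _ = 2 * (S ^ (3 * c) * S) := by ring
        _ ≤ S * (S ^ (3 * c) * S) := Nat.mul_le_mul_right _ hS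
        _ = S ^ (3 * c + 2) := by ring
    · rw [d3, ← v3]
      have hw : wt (lits x) = n := wt_lits x
      have := (hW (n + n)).1
      exact c3 (lits x) hw.ge (by omega)
  · rintro ⟨c, h⟩
    refine ⟨21 + 2 * (K + 14) + (c + 1), fun S hS n m V hV hn hm hmono k => ?_⟩
    obtain ⟨C, h1, h2⟩ := h S hS n m V hV hn hm
    obtain ⟨C', c1, c2, c3⟩ := KC.prop_windows (P := Guess V) hmono C h2 k (W n) K (t n)
      (hW n).1 (hW n).2
    exact ⟨C', c1, c2.trans (pow_bound hS hn h1), c3⟩

end Pool.Agent.W953.GC
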