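import Mathlib
import Pool.Agent.W953.GC.Ndet
import Pool.Agent.W953.KC.Pad

/-!
# Guessing a clique
-/

set_option autoImplicit false

namespace Pool.Agent.W953.GC

open Pool.Agent.H540R2 Pool.Agent.H540R2.Circuit Pool.Agent.W953.NW Pool.Agent.W953.KC

variable {n : ℕ}

lemma av_and {N : ℕ} (P : Circuit N) (G : ℕ → BF N) (e : ℕ) : ∀ k : ℕ,
    (∀ j < k, Av P (G j) e) →
    ∃ P' : Circuit N, Stp P P' k 0 ∧ Av P' (fun x => decide (∀ j < k, G j x = true)) (e + k) := by
  intro k
  induction k with
  | zero =>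
    intro _
    refine ⟨P, Stp.refl _ _ _, (Av.const P true _).congr fun x => ?_⟩
    simp
  | succ k ih =>
    intro h
    obtain ⟨P1, p1, a1⟩ := ih (fun j hj => h j (by omega))
    obtain ⟨P2, p2, a2⟩ := a1.and ((h k (Nat.lt_succ_self k)).ext p1.1)
    refine ⟨P2, (p1.trans p2).le (by omega) (by omega), (a2.mono (by omega)).congr fun x => ?_⟩
    rw [Bool.eq_iff_iff]
    simp only [Bool.and_eq_true, decide_eq_true_eq]
    constructor
    · rintro ⟨h1, h2⟩ j hj
      rcases Nat.lt_succ_iff_lt_or_eq.1 hj with h' | rfl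
      · exact h1 j h'
      · exact h2
    · intro h1
      exact ⟨fun j hj => h1 j (by omega), h1 k (Nat.lt_succ_self k)⟩

/-- a circuit that checks a guessed clique with more than `s` vertices -/
theorem clique_guess (e : Prs n ≃ Fin (n.choose 2)) (s : ℕ) :
    ∃ V : Circuit (n.choose 2 + n), V.size ≤ n + 3 * n.choose 2 + 2 ^ tde n + 1 ∧
      ∀ x, (Guess V x ↔ ¬ (gr e x).CliqueFree (s + 1)) := by
  classical
  obtain ⟨N, hN⟩ : ∃ N, N = n.choose 2 := ⟨_, rfl⟩
  -- the negations of the guessed bits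
  obtain ⟨P1, p1, a1⟩ := Stp.all (Circuit.empty (n.choose 2 + n))
    (fun j u => if hj : j < n then !(u (Fin.natAdd (n.choose 2) ⟨j, hj⟩)) else false) 1 1 1 n
    (fun j hj P' _ => by
      obtain ⟨Q, q1, q2⟩ := (Av.var P' (Fin.natAdd (n.choose 2) (⟨j, hj⟩ : Fin n)) 0).not
      refine ⟨Q, q1, q2.congr fun x => ?_⟩
      rw [dif_pos hj])
  have a2 : ∀ j : Fin n, Av P1 (fun u => !(u (Fin.natAdd (n.choose 2) j))) 1 := fun j =>
    (a1 j.1 j.2).congr fun u => by rw [dif_pos j.2]
  -- the pairs
  let H : ℕ → BF (n.choose 2 + n) := fun c u => if hc : c < n.choose 2 then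
    ((!(u (Fin.natAdd (n.choose 2) (e.symm ⟨c, hc⟩).1.1)) ||
      !(u (Fin.natAdd (n.choose 2) (e.symm ⟨c, hc⟩).1.2))) || u (Fin.castAdd n ⟨c, hc⟩))
    else true
  obtain ⟨P2, p2, a3⟩ := Stp.all P1 H 2 0 3 (n.choose 2) (fun c hc P' hP' => by
    obtain ⟨Q1, q1, b1⟩ := ((a2 (e.symm ⟨c, hc⟩).1.1).ext hP').or
      ((a2 (e.symm ⟨c, hc⟩).1.2).ext hP')
    obtain ⟨Q2, q2, b2⟩ := b1.or (Av.var Q1 (Fin.castAdd n (⟨c, hc⟩ : Fin (n.choose 2))) 1)
    refine ⟨Q2, (q1.trans q2).le (by omega) (by omega), (b2.mono (by simp)).congr fun u => ?_⟩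
    simp only [H, dif_pos hc])
  obtain ⟨P3, p3, a4⟩ := av_and P2 H 3 (n.choose 2) a3
  -- the number of vertices
  have hthr := (thr_mc (n := n) (s + 1)).comp
    (g := fun i : Fin n => fun u : Fin (n.choose 2 + n) → Bool => u (Fin.natAdd (n.choose 2) i))
    (t := 0) (e := 0) (fun i => MC.var _ 0 0)
  obtain ⟨P4, p4, a5⟩ := hthr.av P3
  obtain ⟨P5, p5, a6⟩ := (a4.ext p4.1).and a5
  obtain ⟨V, c1, -, -, c4⟩ := a6.circuit
  refine ⟨V, ?_, fun x => ?_⟩
  · have h1 := ((((p1.trans p2).trans p3).trans p4).trans p5).2.1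
    have h2 : (Circuit.empty (n.choose 2 + n)).size = 0 := rfl
    have h3 : 1 ≤ 2 ^ tde n := Nat.one_le_two_pow
    have h4 : 2 ^ (12 * Nat.log 2 n + 18) = 2 ^ tde n := rfl
    rw [h4] at h1
    omega
  · have hval : ∀ y : Fin n → Bool, V.eval (Fin.append x y) = true ↔
        (∀ p : Prs n, y p.1.1 = true → y p.1.2 = true → x (e p) = true) ∧ s + 1 ≤ wt y := by
      intro y
      rw [c4, Bool.and_eq_true, decide_eq_true_eq]
      have e1 : (∀ j < n.choose 2, H j (Fin.append x y) = true) ↔
          (∀ p : Prs n, y p.1.1 = true → y p.1.2 = true → x (e p) = true) := by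
        constructor
        · intro h p h1 h2
          have := h (e p).1 (e p).2
          simp only [H, dif_pos (e p).2, Fin.eta, Equiv.symm_apply_apply, Fin.append_right,
            Fin.append_left, h1, h2] at this
          simpa using this
        · intro h j hj
          simp only [H, dif_pos hj, Fin.append_right, Fin.append_left]
          have := h (e.symm ⟨j, hj⟩)
          rw [Equiv.apply_symm_apply] at this
          cases h1 : y (e.symm ⟨j, hj⟩).1.1 with
          | false => simp
          | true =>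
            cases h2 : y (e.symm ⟨j, hj⟩).1.2 with
            | false => simp
            | true =>
              rw [this h1 h2]
              simp
      have e2 : thr (s + 1) (fun i : Fin n => Fin.append x y (Fin.natAdd (n.choose 2) i)) = true ↔
          s + 1 ≤ wt y := by
        have : (fun i : Fin n => Fin.append x y (Fin.natAdd (n.choose 2) i)) = y := by
          funext i
          rw [Fin.append_right]
        rw [this, thr, decide_eq_true_eq]
      exact and_congr e1 e2
    constructor
    · rintro ⟨y, hy⟩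
      obtain ⟨h1, h2⟩ := (hval y).1 hy
      intro hfree
      have hfree' := hfree.mono h2
      refine hfree' (Finset.univ.filter (fun i => y i = true)) ⟨?_, rfl⟩
      intro u hu v hv huv
      simp only [Finset.coe_filter, Finset.mem_univ, true_and, Set.mem_ofPred_eq] at hu hv
      rcases lt_or_gt_of_ne huv with h | h
      · rw [gr_adj e x h]
        exact h1 ⟨(u, v), h⟩ hu hv
      · refine SimpleGraph.Adj.symm ?_
        rw [gr_adj e x h]
        exact h1 ⟨(v, u), h⟩ hv hu
    · intro hfree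
      unfold SimpleGraph.CliqueFree at hfree
      push Not at hfree
      obtain ⟨c, hc⟩ := hfree
      refine ⟨fun i => decide (i ∈ c), (hval _).2 ⟨?_, ?_⟩⟩
      · intro p h1 h2
        rw [decide_eq_true_eq] at h1 h2
        have := hc.1 h1 h2 (ne_of_lt p.2)
        rw [gr_adj e x p.2] at this
        exact this
      · unfold wt
        simp only [decide_eq_true_eq, Finset.filter_mem_eq_inter, Finset.univ_inter]
        exact hc.2.ge

/-! ### graphs and assignments -/

/-- the assignment of a graph -/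
noncomputable def asg (e : Prs n ≃ Fin (n.choose 2)) (G : SimpleGraph (Fin n)) :
    Fin (n.choose 2) → Bool := by
  classical
  exact fun c => decide (G.Adj (e.symm c).1.1 (e.symm c).1.2)

lemma gr_asg (e : Prs n ≃ Fin (n.choose 2)) (G : SimpleGraph (Fin n)) : gr e (asg e G) = G := by
  have key : ∀ u v : Fin n, u < v → ((gr e (asg e G)).Adj u v ↔ G.Adj u v) := by
    intro u v h
    rw [gr_adj e _ h]
    simp [asg]
  ext u v
  rcases lt_trichotomy u v with h | h | h
  · exact key u v h
  · subst h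
    simp
  · rw [SimpleGraph.adj_comm, key v u h, SimpleGraph.adj_comm]

lemma edges_gr (e : Prs n ≃ Fin (n.choose 2)) (x : Fin (n.choose 2) → Bool) :
    (gr e x).edgeSet.ncard = wt x := by
  classical
  let f : Fin (n.choose 2) → Sym2 (Fin n) := fun c => s((e.symm c).1.1, (e.symm c).1.2)
  have hf : Function.Injective f := by
    intro c c' h
    have h1 := (e.symm c).2
    have h2 := (e.symm c').2
    simp only [f, Sym2.eq_iff] at h
    apply e.symm.injective
    apply Subtype.ext
    rcases h with ⟨h3, h4⟩ | ⟨h3, h4⟩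
    · exact Prod.ext h3 h4
    · rw [h3, h4] at h1
      exact absurd h1 (not_lt.2 h2.le)
  have himg : (gr e x).edgeSet = f '' {c | x c = true} := by
    ext p
    induction p using Sym2.ind with
    | _ u v =>
      rw [SimpleGraph.mem_edgeSet]
      constructor
      · intro h
        rcases lt_or_gt_of_ne h.ne with h1 | h1
        · rw [gr_adj e x h1] at h
          exact ⟨e ⟨(u, v), h1⟩, h, by simp [f]⟩
        · have h' := h.symm
          rw [gr_adj e x h1] at h'
          exact ⟨e ⟨(v, u), h1⟩, h', by simp [f, Sym2.eq_swap]⟩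
      · rintro ⟨c, hc, hcc⟩
        have h1 := (e.symm c).2
        have h2 : (gr e x).Adj (e.symm c).1.1 (e.symm c).1.2 := by
          rw [gr_adj e x h1]
          simpa using hc
        simp only [f, Sym2.eq_iff] at hcc
        rcases hcc with ⟨h3, h4⟩ | ⟨h3, h4⟩
        · rw [← h3, ← h4]
          exact h2
        · rw [← h3, ← h4]
          exact h2.symm
  rw [himg, Set.ncard_image_of_injective _ hf]
  unfold wt
  rw [← Set.ncard_coe_finset]
  congr 1
  ext c
  simp

lemma big_iff (G : SimpleGraph (Fin n)) :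
    (∃ c : Finset (Fin n), G.IsClique (c : Set (Fin n)) ∧ Real.sqrt (n : ℝ) < (c.card : ℝ)) ↔
      ¬ G.CliqueFree (Nat.sqrt n + 1) := by
  have hsq : ∀ k : ℕ, Real.sqrt (n : ℝ) < (k : ℝ) ↔ Nat.sqrt n + 1 ≤ k := by
    intro k
    rw [Real.sqrt_lt (Nat.cast_nonneg n) (Nat.cast_nonneg k), Nat.succ_le_iff, Nat.sqrt_lt']
    exact_mod_cast Iff.rfl
  constructor
  · rintro ⟨c, h1, h2⟩ hfree
    exact (hfree.mono ((hsq _).1 h2)) c ⟨h1, rfl⟩
  · intro hfree
    unfold SimpleGraph.CliqueFree at hfree
    push Not at hfree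
    obtain ⟨c, hc⟩ := hfree
    exact ⟨c, hc.1, (hsq _).2 hc.2.ge⟩

end Pool.Agent.W953.GC
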