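import Mathlib
import Pool.Agent.W953.GC.Clq
import Pool.Agent.W953.KC.NMc
import Pool.Agent.H560R2.Win3
import Pool.Agent.W953.NW.Fin

/-!
# The lower bound for windows
-/

set_option autoImplicit false

namespace Pool.Agent.W953.GC

open Filter Pool.Agent.H540R2 Pool.Agent.H540R2.Circuit Pool.Agent.W953.NW Pool.Agent.W953.KC

variable {n : ℕ}

/-- the lower bound for circuits on assignments -/
theorem window_asg (d t m R : ℕ) (hd : 1 ≤ d)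
    (hR : R = 2 ^ ((t + 1) / 2) * (2 ^ 65 * (Nat.log 2 d + 1) ^ 6 * d ^ 4))
    (h1 : (Nat.sqrt n + R) ^ 2 ≤ 2 * m)
    (h2 : 2 * m + n * (3 * Nat.sqrt n + 2 * R + 4) ≤ n ^ 2)
    (e : Prs n ≃ Fin (n.choose 2)) (C : Circuit (n.choose 2)) (hC : C.nots ≤ t)
    (hx : ∀ x, m ≤ wt x → wt x ≤ m + 2 ^ t * (2 ^ 42 * (Nat.log 2 d + 1) ^ 4 * d ^ 2) →
      (C.eval x = true ↔ ¬ (gr e x).CliqueFree (Nat.sqrt n + 1))) : 2 ^ d ≤ C.size := by
  have hsx : ∀ G : SimpleGraph (Fin n), sx (fun c => Sum.inl c) (Pool.Agent.H560R2.inp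
      (fun (c : Fin (n.choose 2)) G => asg e G c) G) = asg e G := by
    intro G
    funext c
    rfl
  have key := Pool.Agent.H560R2.window_lower d t n m R hd hR h1 h2
    (fun (c : Fin (n.choose 2)) G => asg e G c) (fun c => by
      refine ⟨{s((e.symm c).1.1, (e.symm c).1.2)}, ?_, ?_, ?_⟩
      · intro p hp
        rw [Finset.mem_singleton] at hp
        subst hp
        rw [SimpleGraph.mem_edgeSet, SimpleGraph.top_adj]
        exact ne_of_lt (e.symm c).2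
      · rw [Finset.card_singleton]
        exact hd
      · intro G G' _ h3 h4
        simp only [asg, decide_eq_true_eq] at h4 ⊢
        exact h3 _ _ (by simp) h4)
    (build (fun c => Sum.inl c) C C.size) (outOf (fun c => Sum.inl c) C) (fun G g1 g2 => by
      rw [outOf_eval, hsx, big_iff]
      have e1 : wt (asg e G) = G.edgeSet.ncard := by rw [← edges_gr e, gr_asg]
      rw [hx (asg e G) (by rw [e1]; exact g1) (by rw [e1]; exact g2), gr_asg])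
    (by
      rw [build_prod]
      exact Nat.pow_le_pow_right (by norm_num) hC)
  rwa [build_size] at key

/-- powers of logarithms are small -/
lemma small_log (A B a : ℕ) : ∃ l₀ : ℕ, ∀ l ≥ l₀, ∀ d, 1 ≤ d → d ≤ a * l →
    A * (Nat.log 2 d + 1) ^ B ≤ l := by
  obtain ⟨L, hL⟩ := pow_lt_two_pow (B + 1)
  refine ⟨A * (max L (2 * (a * A))) ^ B, fun l hl d hd hda => ?_⟩
  by_contra hcon
  push Not at hcon
  obtain ⟨u, hu⟩ : ∃ u, u = Nat.log 2 d + 1 := ⟨_, rfl⟩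
  rw [← hu] at hcon
  have hud : 2 ^ u ≤ 2 * d := by
    rw [hu, pow_succ]
    have := Nat.pow_log_le_self 2 (show d ≠ 0 by omega)
    omega
  rcases le_or_gt (max L (2 * (a * A))) u with h | h
  · have h1 : L ≤ u := (le_max_left _ _).trans h
    have h2 : 2 * (a * A) ≤ u := (le_max_right _ _).trans h
    have h3 := hL u h1
    have h4 : 2 * (a * l) ≤ u ^ (B + 1) := by
      calc 2 * (a * l) ≤ 2 * (a * (A * u ^ B)) :=
            Nat.mul_le_mul_left _ (Nat.mul_le_mul_left _ hcon.le)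
        _ = (2 * (a * A)) * u ^ B := by ring
        _ ≤ u * u ^ B := Nat.mul_le_mul_right _ h2
        _ = u ^ (B + 1) := by ring
    omega
  · have : A * u ^ B ≤ A * (max L (2 * (a * A))) ^ B :=
      Nat.mul_le_mul_left _ (Nat.pow_le_pow_left h.le B)
    omega

lemma choose_ge {n : ℕ} (hn : 3 ≤ n) : n ≤ n.choose 2 := by
  rw [Nat.choose_two_right, Nat.le_div_iff_mul_le (by norm_num)]
  exact Nat.mul_le_mul_left _ (by omega)

lemma size43 {n N T s B : ℕ} (hB : B ≤ n) (hn : 1024 ≤ n) (hN : 2 * N ≤ n ^ 2)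
    (hT : T ≤ B * (n + 1) ^ 12) (hs : s ≤ n + 3 * N + T + 1) : s ≤ n ^ 43 := by
  have hn0 : 1 ≤ n := by omega
  have g1 : T ≤ n ^ 42 := by
    refine hT.trans ?_
    have g2 : n + 1 ≤ n ^ 2 := by nlinarith
    calc B * (n + 1) ^ 12 ≤ n * (n ^ 2) ^ 12 := Nat.mul_le_mul hB (Nat.pow_le_pow_left g2 12)
      _ = n ^ 25 := by ring
      _ ≤ n ^ 42 := Nat.pow_le_pow_right hn0 (by norm_num)
  have g3 : n + 3 * N + 1 ≤ n ^ 42 := by
    calc n + 3 * N + 1 ≤ 4 * n ^ 2 := by nlinarith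
      _ ≤ n * n ^ 2 := Nat.mul_le_mul_right _ (by omega)
      _ = n ^ 3 := by ring
      _ ≤ n ^ 42 := Nat.pow_le_pow_right hn0 (by norm_num)
  calc s ≤ n ^ 42 + n ^ 42 := by omega
    _ = 2 * n ^ 42 := by ring
    _ ≤ n * n ^ 42 := Nat.mul_le_mul_right _ (by omega)
    _ = n ^ 43 := by ring

lemma win_bound {A a l u d T w L : ℕ} (hs : (A * a ^ 2 + 1) * u ^ 4 ≤ l) (hu : 1 ≤ u)
    (hda : d ≤ a * l) (hl : 1 ≤ l) (hL : l ≤ L) (hT : 1 ≤ T) (hw : T * L ^ 3 ≤ w) :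
    T * (A * u ^ 4 * d ^ 2) < w := by
  have g1 : A * u ^ 4 * d ^ 2 < l ^ 3 := by
    have g2 : A * a ^ 2 * u ^ 4 < l := by
      have g3 : (A * a ^ 2 + 1) * u ^ 4 = A * a ^ 2 * u ^ 4 + u ^ 4 := by ring
      have g4 : 1 ≤ u ^ 4 := Nat.one_le_pow _ _ hu
      omega
    calc A * u ^ 4 * d ^ 2 ≤ A * u ^ 4 * (a * l) ^ 2 :=
          Nat.mul_le_mul_left _ (Nat.pow_le_pow_left hda 2)
      _ = (A * a ^ 2 * u ^ 4) * l ^ 2 := by ring
      _ < l * l ^ 2 := Nat.mul_lt_mul_of_pos_right g2 (Nat.pow_pos (by omega))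
      _ = l ^ 3 := by ring
  calc T * (A * u ^ 4 * d ^ 2) < T * l ^ 3 := Nat.mul_lt_mul_of_pos_left g1 (by omega)
    _ ≤ T * L ^ 3 := Nat.mul_le_mul_left _ (Nat.pow_le_pow_left hL 3)
    _ ≤ w := hw

lemma r_bound {B a l u d T R n N L E : ℕ} (hs : 64 * B ^ 2 * a ^ 8 * u ^ 12 ≤ l)
    (hda : d ≤ a * l) (hL : l ≤ L) (hE : E ^ 2 ≤ 2 * T) (hN : T * L ^ 9 ≤ N)
    (hNn : 2 * N ≤ n ^ 2) (hR : R = E * (B * u ^ 6 * d ^ 4)) : 8 * R ≤ n := by
  refine (Nat.pow_le_pow_iff_left (two_ne_zero)).1 ?_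
  have g1 : (B * u ^ 6 * d ^ 4) ^ 2 * 64 ≤ l ^ 9 := by
    calc (B * u ^ 6 * d ^ 4) ^ 2 * 64 = 64 * B ^ 2 * u ^ 12 * d ^ 8 := by ring
      _ ≤ 64 * B ^ 2 * u ^ 12 * (a * l) ^ 8 :=
          Nat.mul_le_mul_left _ (Nat.pow_le_pow_left hda 8)
      _ = (64 * B ^ 2 * a ^ 8 * u ^ 12) * l ^ 8 := by ring
      _ ≤ l * l ^ 8 := Nat.mul_le_mul_right _ hs
      _ = l ^ 9 := by ring
  calc (8 * R) ^ 2 = E ^ 2 * ((B * u ^ 6 * d ^ 4) ^ 2 * 64) := by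
        rw [hR]; ring
    _ ≤ (2 * T) * l ^ 9 := Nat.mul_le_mul hE g1
    _ ≤ (2 * T) * L ^ 9 := Nat.mul_le_mul_left _ (Nat.pow_le_pow_left hL 9)
    _ = 2 * (T * L ^ 9) := by ring
    _ ≤ 2 * N := Nat.mul_le_mul_left _ hN
    _ ≤ n ^ 2 := hNn

lemma exists_m {n q R : ℕ} (hn : 1024 ≤ n) (hq : 32 * q ≤ n) (hR : 8 * R ≤ n) :
    ∃ m, (q + R) ^ 2 ≤ 2 * m ∧ 2 * m + n * (3 * q + 2 * R + 4) ≤ n ^ 2 := by
  obtain ⟨s, hs⟩ : ∃ s, s = n ^ 2 := ⟨_, rfl⟩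
  refine ⟨s / 8, ?_, ?_⟩
  · have g1 : 32 * (q + R) ≤ 5 * n := by omega
    have g2 := Nat.pow_le_pow_left g1 2
    have g3 : (32 * (q + R)) ^ 2 = 1024 * (q + R) ^ 2 := by ring
    have g4 : (5 * n) ^ 2 = 25 * s := by rw [hs]; ring
    have g5 : 1024 ≤ s := by rw [hs]; nlinarith
    omega
  · have g2 : n * (32 * (3 * q + 2 * R + 4)) ≤ n * (12 * n) :=
      Nat.mul_le_mul_left _ (by omega)
    have g3 : n * (32 * (3 * q + 2 * R + 4)) = 32 * (n * (3 * q + 2 * R + 4)) := by ring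
    have g4 : n * (12 * n) = 12 * s := by rw [hs]; ring
    rw [← hs]
    omega

lemma size_lt {n c l d s : ℕ} (hn : n < 2 ^ (l + 1)) (hs : s ≤ (n ^ 43) ^ c)
    (hd : d = 43 * c * (l + 1) + 1) : s < 2 ^ d := by
  refine lt_of_le_of_lt hs ?_
  calc (n ^ 43) ^ c ≤ ((2 ^ (l + 1)) ^ 43) ^ c :=
        Nat.pow_le_pow_left (Nat.pow_le_pow_left hn.le 43) c
    _ = 2 ^ (43 * c * (l + 1)) := by
        rw [← pow_mul, ← pow_mul]
        congr 1
        ring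
    _ < 2 ^ d := Nat.pow_lt_pow_right (by norm_num) (by omega)

/-- **The lower bound.** -/
theorem not_on (t W : ℕ → ℕ)
    (h : ∃ᶠ n : ℕ in atTop, 2 ^ t (n.choose 2) * Nat.log 2 (n.choose 2) ^ 3 ≤ W (n.choose 2) ∧
      2 ^ t (n.choose 2) * Nat.log 2 (n.choose 2) ^ 9 ≤ n.choose 2) : ¬ On t W := by
  rintro ⟨c, hc⟩
  obtain ⟨A, hA⟩ : ∃ A : ℕ, A = 2 ^ 42 := ⟨_, rfl⟩
  obtain ⟨B, hB⟩ : ∃ B : ℕ, B = 2 ^ 65 := ⟨_, rfl⟩
  obtain ⟨D, hD⟩ : ∃ D : ℕ, D = 2 ^ 18 := ⟨_, rfl⟩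
  obtain ⟨a, ha⟩ : ∃ a : ℕ, a = 86 * c + 1 := ⟨_, rfl⟩
  obtain ⟨l1, hl1⟩ := small_log (A * a ^ 2 + 1) 4 a
  obtain ⟨l2, hl2⟩ := small_log (64 * B ^ 2 * a ^ 8) 12 a
  have hbig : ∀ᶠ n : ℕ in atTop, l1 + l2 ≤ Nat.log 2 n ∧ D + 1024 ≤ n := by
    filter_upwards [eventually_ge_atTop (2 ^ (l1 + l2)), eventually_ge_atTop (D + 1024)]
      with n h1 h2
    exact ⟨Nat.le_log_of_pow_le (by norm_num) h1, h2⟩
  obtain ⟨n, ⟨hW1, hW2⟩, hl, hn18⟩ := (h.and_eventually hbig).exists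
  have hn1024 : 1024 ≤ n := by omega
  obtain ⟨N, hN⟩ : ∃ N, N = n.choose 2 := ⟨_, rfl⟩
  obtain ⟨l, hll⟩ : ∃ l, l = Nat.log 2 n := ⟨_, rfl⟩
  rw [← hll] at hl
  have hlN : l ≤ Nat.log 2 N := by
    rw [hll, hN]
    exact Nat.log_mono_right (choose_ge (by omega))
  have hl1' : 1 ≤ l := by
    rw [hll]
    exact Nat.log_pos (by norm_num) (by omega)
  have hNn : 2 * N ≤ n ^ 2 := by
    have h1 : N = n * (n - 1) / 2 := by rw [hN]; exact Nat.choose_two_right n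
    have h2 : n * (n - 1) / 2 * 2 ≤ n * (n - 1) := Nat.div_mul_le_self _ _
    have h3 : n * (n - 1) ≤ n * n := Nat.mul_le_mul_left _ (Nat.sub_le _ _)
    rw [h1, sq]
    omega
  rw [← hN] at hW1 hW2
  -- the clique function
  let e : Prs n ≃ Fin (n.choose 2) := Fintype.equivFinOfCardEq (card_pairs n)
  obtain ⟨V, hV1, hV2⟩ := clique_guess e (Nat.sqrt n)
  have hVS : V.size ≤ n ^ 43 := by
    have hT : 2 ^ tde n ≤ D * (n + 1) ^ 12 := by
      rw [hD]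
      exact tde_pow n
    have hV1' : V.size ≤ n + 3 * N + 2 ^ tde n + 1 := by
      rw [hN]
      exact hV1
    have hDn : D ≤ n := by omega
    exact size43 hDn hn1024 hNn hT hV1'
  have hmono : ∀ x x' : Fin (n.choose 2) → Bool, (∀ i, x i ≤ x' i) → Guess V x → Guess V x' := by
    intro x x' hxx hx
    rw [hV2] at hx ⊢
    exact fun h' => hx (h'.anti (gr_mono e hxx))
  -- the parameters
  obtain ⟨d, hd⟩ : ∃ d : ℕ, d = 43 * c * (l + 1) + 1 := ⟨_, rfl⟩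
  have hda : d ≤ a * l := by
    have h1 : a * l = 86 * c * l + l := by rw [ha]; ring
    have h2 : 43 * c * (l + 1) ≤ 86 * c * l := by
      calc 43 * c * (l + 1) ≤ 43 * c * (2 * l) := Nat.mul_le_mul_left _ (by omega)
        _ = 86 * c * l := by ring
    omega
  have hs1 := hl1 l (by omega) d (by omega) hda
  have hs2 := hl2 l (by omega) d (by omega) hda
  obtain ⟨u, hu⟩ : ∃ u : ℕ, u = Nat.log 2 d + 1 := ⟨_, rfl⟩
  rw [← hu] at hs1 hs2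
  have hu1 : 1 ≤ u := by omega
  have hwin : 2 ^ t N * (A * u ^ 4 * d ^ 2) < W N :=
    win_bound hs1 hu1 hda hl1' hlN Nat.one_le_two_pow hW1
  obtain ⟨R, hR⟩ : ∃ R, R = 2 ^ ((t N + 1) / 2) * (B * u ^ 6 * d ^ 4) := ⟨_, rfl⟩
  have hR8 : 8 * R ≤ n := by
    refine r_bound hs2 hda hlN ?_ hW2 hNn hR
    rw [← pow_mul, ← pow_succ']
    exact Nat.pow_le_pow_right (by norm_num) (Nat.div_mul_le_self _ _)
  have hsq : 32 * Nat.sqrt n ≤ n := by
    have g1 : Nat.sqrt n * Nat.sqrt n ≤ n := Nat.sqrt_le n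
    have g2 : 32 ≤ Nat.sqrt n := by
      rw [Nat.le_sqrt']
      omega
    exact (Nat.mul_le_mul_right _ g2).trans g1
  obtain ⟨m, h1, h2⟩ := exists_m hn1024 hsq hR8
  have hn0 : 1 ≤ n := by omega
  have e1 : n ≤ n ^ 43 := Nat.le_self_pow (by norm_num) n
  have e2 : n ^ 2 ≤ n ^ 43 := Nat.pow_le_pow_right hn0 (by norm_num)
  obtain ⟨C, c1, c2, c3⟩ := hc (n ^ 43) (by omega) (n.choose 2) n V hVS (by omega) e1 hmono m
  have c1' : C.nots ≤ t N := by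
    rw [hN]
    exact c1
  have hlow := window_asg (n := n) d (t N) m R (by omega) (by rw [hR, hB, hu]) h1 h2 e C c1'
    (fun x hx1 hx2 => by
      rw [← hV2 x]
      refine c3 x hx1 (lt_of_le_of_lt hx2 ?_)
      have hw2 : 2 ^ t N * (2 ^ 42 * (Nat.log 2 d + 1) ^ 4 * d ^ 2) < W (n.choose 2) := by
        rw [← hA, ← hu, ← hN]
        exact hwin
      exact Nat.add_lt_add_left hw2 m)
  have hup : C.size < 2 ^ d := size_lt (by rw [hll]; exact Nat.lt_pow_succ_log_self (by norm_num) n)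
    c2 hd
  omega

end Pool.Agent.W953.GC
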